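import Pool.Agent.Run7.h441.FQ.Cong
import Pool.Agent.Y153.QN3.Two

/-!
The second question of MP_fdcced_nt: the two cases.
-/

set_option autoImplicit false

namespace Run7.h441.FQ

open Finset Pool.Agent.R439.PL Pool.Agent.R439.PL.FD

variable {p n : ℕ} [hp : Fact p.Prime]

theorem I_of_dvd {a : ℤ} (h : (p : ℤ) ∣ a) : I p 1 (a : ℚ) := by
  obtain ⟨c, rfl⟩ := h
  refine ⟨(c : ℚ), int_mem c, ?_⟩
  push_cast
  ring

/-- `(-1)^j` in two rings -/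
theorem sign_exists (j : ℤ) : ∃ σ : ℤ, σ ^ 2 = 1 ∧ ((-1 : ZMod p) ^ j = (σ : ZMod p)) ∧
    ((-1 : ℚ) ^ j = (σ : ℚ)) := by
  rcases Int.even_or_odd j with h | h
  · exact ⟨1, by norm_num, by rw [h.neg_one_zpow]; simp, by rw [h.neg_one_zpow]; simp⟩
  · exact ⟨-1, by norm_num, by rw [h.neg_one_zpow]; simp, by rw [h.neg_one_zpow]; simp⟩

omit hp in
theorem not_dvd_of_lt {x y : ℤ} (h : (p : ℤ) = x ^ 2 + y ^ 2) (hx : x ≠ 0) (hy : y ≠ 0) :
    ¬ (p : ℤ) ∣ x := by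
  intro hd
  have h1 : (p : ℤ) ≤ |x| := by
    have := Int.le_of_dvd (abs_pos.2 hx) ((dvd_abs _ _).2 hd)
    exact this
  have h2 : 0 < y ^ 2 := by positivity
  have h3 : |x| ≤ |x| ^ 2 := by
    have : 1 ≤ |x| := Int.one_le_abs hx
    nlinarith
  rw [sq_abs] at h3
  omega

/-- the quartic character of two, `p ≡ 1 (mod 8)` -/
theorem quart_even (hpn : p = 4 * n + 1) {x y : ℤ} (h : (p : ℤ) = x ^ 2 + y ^ 2) (hx : x % 4 = 1)
    (hn : n % 2 = 0) : ((2 : ZMod p) ^ n = (-1) ^ (y / 4)) := by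
  have hy2 : y % 2 = 0 := by
    by_contra hcon
    have h1 : y % 2 = 1 := by omega
    have h2 : (p : ℤ) % 4 = 1 := by omega
    have h3 : (x ^ 2 + y ^ 2) % 4 = 2 := by
      obtain ⟨a, ha⟩ : ∃ a, x = 4 * a + 1 := ⟨x / 4, by omega⟩
      obtain ⟨b, hb⟩ : ∃ b, y = 2 * b + 1 := ⟨y / 2, by omega⟩
      have : x ^ 2 + y ^ 2 = 4 * (4 * a ^ 2 + 2 * a + b ^ 2 + b) + 2 := by rw [ha, hb]; ring
      omega
    omega
  obtain ⟨c, hc⟩ : ∃ c, y = 2 * c := ⟨y / 2, by omega⟩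
  obtain ⟨a, ha⟩ : ∃ a, x = 4 * a + 1 := ⟨x / 4, by omega⟩
  have hc2 : c % 2 = 0 := by
    by_contra hcon
    obtain ⟨d, hd⟩ : ∃ d, c = 2 * d + 1 := ⟨c / 2, by omega⟩
    have h3 : x ^ 2 + y ^ 2 = 8 * (2 * a ^ 2 + a + 2 * d ^ 2 + 2 * d) + 5 := by
      rw [ha, hc, hd]; ring
    omega
  obtain ⟨d, hd⟩ : ∃ d, c = 2 * d := ⟨c / 2, by omega⟩
  have hx0 : ((x : ℤ) : ZMod p) ≠ 0 := by
    intro h0
    have h1 := (ZMod.intCast_zmod_eq_zero_iff_dvd x p).1 h0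
    rcases eq_or_ne y 0 with hy | hy
    · rw [hy] at h
      have h2 : (p : ℤ) = x ^ 2 := by rw [h]; ring
      have h3 : Prime (p : ℤ) := Nat.prime_iff_prime_int.1 hp.out
      rw [h2] at h3
      exact not_prime_pow (by norm_num) h3
    · exact not_dvd_of_lt h (by omega) hy h1
  set r : ZMod p := (y : ZMod p) / (x : ZMod p) with hr
  have hr1 : ((y : ℤ) : ZMod p) = r * (x : ℤ) := by rw [hr]; field_simp
  have hr2 : r ^ 2 = -1 := by
    have h1 : ((p : ℤ) : ZMod p) = ((x ^ 2 + y ^ 2 : ℤ) : ZMod p) := by rw [h]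
    have h2 : (0 : ZMod p) = (x : ZMod p) ^ 2 + (y : ZMod p) ^ 2 := by
      have h3 : ((p : ℤ) : ZMod p) = 0 := by simp
      rw [h3] at h1
      push_cast at h1
      exact h1
    rw [hr, div_pow, div_eq_iff (pow_ne_zero _ hx0)]
    linear_combination (-1) * h2
  have h1 := Pool.Agent.Y153.QN3.two_main (p := p) (by omega) x y (by omega) hy2
    (by rw [h]; ring) r hr1 hr2
  rw [show (p - 1) / 4 = n by omega] at h1
  rw [h1]
  have hr0 : r ≠ 0 := by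
    intro h0
    rw [h0] at hr2
    have : (1 : ZMod p) = 0 := by linear_combination hr2
    exact one_ne_zero this
  have e1 : x * y / 2 = 2 * (x * d) := by
    rw [hc, hd, show x * (2 * (2 * d)) = 2 * (2 * (x * d)) by ring]
    exact Int.mul_ediv_cancel_left _ (by norm_num)
  have e2 : y / 4 = d := by omega
  rw [e1, e2, zpow_mul, zpow_ofNat, hr2]
  have e3 : x * d = 2 * (2 * a * d) + d := by rw [ha]; ring
  rw [e3, zpow_add₀ (by norm_num), zpow_mul]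
  norm_num

/-- the quartic character of two, `p ≡ 5 (mod 8)` -/
theorem quart_odd (hpn : p = 4 * n + 1) {x y : ℤ} (h : (p : ℤ) = x ^ 2 + y ^ 2) (hx : x % 4 = 1)
    (hn : n % 2 = 1) : ((2 : ZMod p) ^ n * (x : ZMod p) = (-1) ^ ((y - 2) / 4) * (y : ZMod p)) ∧
      y % 4 = 2 := by
  have hy2 : y % 2 = 0 := by
    by_contra hcon
    have h1 : y % 2 = 1 := by omega
    have h2 : (p : ℤ) % 4 = 1 := by omega
    have h3 : (x ^ 2 + y ^ 2) % 4 = 2 := by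
      obtain ⟨a, ha⟩ : ∃ a, x = 4 * a + 1 := ⟨x / 4, by omega⟩
      obtain ⟨b, hb⟩ : ∃ b, y = 2 * b + 1 := ⟨y / 2, by omega⟩
      have : x ^ 2 + y ^ 2 = 4 * (4 * a ^ 2 + 2 * a + b ^ 2 + b) + 2 := by rw [ha, hb]; ring
      omega
    omega
  obtain ⟨c, hc⟩ : ∃ c, y = 2 * c := ⟨y / 2, by omega⟩
  obtain ⟨a, ha⟩ : ∃ a, x = 4 * a + 1 := ⟨x / 4, by omega⟩
  have hc2 : c % 2 = 1 := by
    by_contra hcon
    obtain ⟨d, hd⟩ : ∃ d, c = 2 * d := ⟨c / 2, by omega⟩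
    have h3 : x ^ 2 + y ^ 2 = 8 * (2 * a ^ 2 + a + 2 * d ^ 2) + 1 := by
      rw [ha, hc, hd]; ring
    omega
  obtain ⟨d, hd⟩ : ∃ d, c = 2 * d + 1 := ⟨c / 2, by omega⟩
  have hx0 : ((x : ℤ) : ZMod p) ≠ 0 := by
    intro h0
    have h1 := (ZMod.intCast_zmod_eq_zero_iff_dvd x p).1 h0
    exact not_dvd_of_lt h (by omega) (by omega) h1
  set r : ZMod p := (y : ZMod p) / (x : ZMod p) with hr
  have hr1 : ((y : ℤ) : ZMod p) = r * (x : ℤ) := by rw [hr]; field_simp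
  have hr2 : r ^ 2 = -1 := by
    have h1 : ((p : ℤ) : ZMod p) = ((x ^ 2 + y ^ 2 : ℤ) : ZMod p) := by rw [h]
    have h2 : (0 : ZMod p) = (x : ZMod p) ^ 2 + (y : ZMod p) ^ 2 := by
      have h3 : ((p : ℤ) : ZMod p) = 0 := by simp
      rw [h3] at h1
      push_cast at h1
      exact h1
    rw [hr, div_pow, div_eq_iff (pow_ne_zero _ hx0)]
    linear_combination (-1) * h2
  have h1 := Pool.Agent.Y153.QN3.two_main (p := p) (by omega) x y (by omega) hy2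
    (by rw [h]; ring) r hr1 hr2
  rw [show (p - 1) / 4 = n by omega] at h1
  refine ⟨?_, by omega⟩
  rw [h1]
  have hr0 : r ≠ 0 := by
    intro h0
    rw [h0] at hr2
    have : (1 : ZMod p) = 0 := by linear_combination hr2
    exact one_ne_zero this
  have e1 : x * y / 2 = 2 * (2 * (a * (2 * d + 1)) + d) + 1 := by
    rw [hc, hd, ha, show (4 * a + 1) * (2 * (2 * d + 1)) = 2 * (2 * (2 * (a * (2 * d + 1)) + d) + 1) by ring]
    exact Int.mul_ediv_cancel_left _ (by norm_num)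
  have e2 : (y - 2) / 4 = d := by omega
  rw [e1, e2, zpow_add₀ hr0, zpow_mul, zpow_ofNat, hr2, zpow_one, zpow_add₀ (by norm_num), zpow_mul]
  rw [mul_assoc, ← hr1]
  norm_num

/-- first case -/
theorem case_one (hpn : p = 4 * n + 1) {x y : ℤ} (h : (p : ℤ) = x ^ 2 + y ^ 2) (hx : x % 4 = 1)
    (hn : n % 2 = 0) : EQ p 2 (SR p) ((-1) ^ (y / 4) * (2 * x - p / (2 * x))) := by
  have u2 := unit2 hpn
  obtain ⟨hm, hV⟩ := SR_main hpn h hx
  obtain ⟨σ, hσ, s1, s2⟩ := sign_exists (p := p) (y / 4)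
  have hq := quart_even hpn h hx hn
  rw [s1] at hq
  have h1 : I p 1 ((2 : ℚ) ^ n - σ) := by
    have h2 : (p : ℤ) ∣ 2 ^ n - σ := by
      rw [← ZMod.intCast_zmod_eq_zero_iff_dvd]
      push_cast
      rw [hq]; ring
    have := I_of_dvd (p := p) h2
    push_cast at this
    exact this
  have e0 : (-1 : ℚ) ^ n = 1 := by
    rw [show n = 2 * (n / 2) by omega, pow_mul]; norm_num
  rw [e0] at hm
  rw [s2]
  have hσQ : (σ : ℚ) ^ 2 = 1 := by exact_mod_cast hσ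
  have mS : SR p ∈ Zp p := (SR_RR hpn).1
  refine ⟨mS, mul_mem (int_mem σ) hV, ?_⟩
  have ut : U p ((2 : ℚ) * 2 ^ n) := u2.mul (u2.pow n)
  apply ut.cancel
  have h3 := hm.2.2.add ((h1.mul h1).mulL hV)
  convert h3 using 1
  linear_combination (-(2 * (x : ℚ) - p / (2 * x))) * hσQ

/-- second case -/
theorem case_two (hpn : p = 4 * n + 1) {x y : ℤ} (h : (p : ℤ) = x ^ 2 + y ^ 2) (hx : x % 4 = 1)
    (hn : n % 2 = 1) : EQ p 2 (SR p) ((-1) ^ ((y - 2) / 4) * (2 * y - p / (2 * y))) := by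
  have u2 := unit2 hpn
  obtain ⟨hm, hV⟩ := SR_main hpn h hx
  obtain ⟨σ, hσ, s1, s2⟩ := sign_exists (p := p) ((y - 2) / 4)
  obtain ⟨hq, hy4⟩ := quart_odd hpn h hx hn
  rw [s1] at hq
  have hx0 : x ≠ 0 := by omega
  have hy0 : y ≠ 0 := by omega
  have ux : U p (x : ℚ) := U_int (not_dvd_of_lt h hx0 hy0)
  have uy : U p (y : ℚ) := U_int (not_dvd_of_lt (x := y) (y := x) (by rw [h]; ring) hy0 hx0)
  have h1 : I p 1 ((2 : ℚ) ^ n * x - σ * y) := by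
    have h2 : (p : ℤ) ∣ 2 ^ n * x - σ * y := by
      rw [← ZMod.intCast_zmod_eq_zero_iff_dvd]
      push_cast
      rw [hq]; ring
    have := I_of_dvd (p := p) h2
    push_cast at this
    exact this
  have e0 : (-1 : ℚ) ^ n = -1 := by
    rw [show n = 2 * (n / 2) + 1 by omega, pow_succ, pow_mul]; norm_num
  rw [e0] at hm
  rw [s2]
  have hσQ : (σ : ℚ) ^ 2 = 1 := by exact_mod_cast hσ
  have hpq : (p : ℚ) = (x : ℚ) ^ 2 + (y : ℚ) ^ 2 := by exact_mod_cast h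
  have hxq : (x : ℚ) ≠ 0 := by exact_mod_cast hx0
  have hyq : (y : ℚ) ≠ 0 := by exact_mod_cast hy0
  have mS : SR p ∈ Zp p := (SR_RR hpn).1
  have mY : (2 * (y : ℚ) - p / (2 * y)) ∈ Zp p := by
    refine sub_mem (mul_mem u2.2.1 (int_mem y)) ?_
    rw [div_eq_mul_inv]
    exact mul_mem p_mem (u2.mul uy).2.2
  refine ⟨mS, mul_mem (int_mem σ) mY, ?_⟩
  have m3 : (3 : ℚ) ∈ Zp p := by exact_mod_cast nat_mem (p := p) 3
  have mx := ux.2.1
  have my := uy.2.1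
  have mσ : (σ : ℚ) ∈ Zp p := int_mem σ
  -- the key identity
  have key : 2 * (x : ℚ) ^ 3 * y * ((2 * x - p / (2 * x)) * ((2 ^ n) ^ 2 + -1) -
      2 * 2 ^ n * (σ * (2 * y - p / (2 * y)))) =
      (-(y : ℚ)) * ((p : ℚ) * p) + (2 * σ * (x ^ 2 - y ^ 2)) * ((2 ^ n * x - σ * y) * p) +
        (y * (3 * x ^ 2 - y ^ 2)) * ((2 ^ n * x - σ * y) * (2 ^ n * x - σ * y)) := by
    rw [hpq]
    generalize (2 : ℚ) ^ n = t
    field_simp
    linear_combination (-(y : ℚ) * (-2 * x ^ 4 + 3 * x ^ 2 * y ^ 2 + y ^ 4)) * hσQ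
  have hI : I p 2 (2 * (x : ℚ) ^ 3 * y * ((2 * x - p / (2 * x)) * ((2 ^ n) ^ 2 + -1) -
      2 * 2 ^ n * (σ * (2 * y - p / (2 * y))))) := by
    rw [key]
    refine I.add (I.add ?_ ?_) ?_
    · exact ((I_p (p := p)).mul I_p).mulL (neg_mem my)
    · exact (h1.mul I_p).mulL (mul_mem (mul_mem u2.2.1 mσ) (sub_mem (pow_mem mx 2) (pow_mem my 2)))
    · exact (h1.mul h1).mulL (mul_mem my (sub_mem (mul_mem m3 (pow_mem mx 2)) (pow_mem my 2)))
  have hI2 := ((u2.mul (ux.pow 3)).mul uy).cancel hI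
  have ut : U p ((2 : ℚ) * 2 ^ n) := u2.mul (u2.pow n)
  apply ut.cancel
  have h3 := hm.2.2.add hI2
  convert h3 using 1
  ring

end Run7.h441.FQ
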