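import Pool.Agent.Run7.h441.FQ.Exact

/-!
Congruences modulo `p^2` for the second question of MP_fdcced_nt.
-/

set_option autoImplicit false

namespace Run7.h441.FQ

open Finset Pool.Agent.R439.W3 Pool.Agent.R439.S4 Pool.Agent.R439.PL Pool.Agent.R439.PL.S4
open Pool.Agent.R439.FD Pool.Agent.R439.PL.FD
open Pool.Agent.R488.Cub (gb)
open Pool.Agent.R439 (ch ch_zero)

variable {p n : ℕ} [hp : Fact p.Prime]

/-- the sum of the problem -/
def SR (p : ℕ) : ℚ := ∑ k ∈ range p, gb (-1 / 4) k ^ 2 * (-1 / 8) ^ k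

theorem SR_RR (hpn : p = 4 * n + 1) : EQ p 2 (SR p) (RR n) := by
  have hn := hn0 hpn
  have e1 : RR n = ∑ k ∈ range p, gb (n : ℚ) k * gb (-(n : ℚ) - 1 / 2) k * (-1 / 8) ^ k := by
    rw [RR]
    have h9 : p = n + 1 + 3 * n := by omega
    conv_rhs => rw [h9, sum_range_add]
    have h0 : ∑ x ∈ range (3 * n), gb (n : ℚ) (n + 1 + x) * gb (-(n : ℚ) - 1 / 2) (n + 1 + x) *
        (-1 / 8) ^ (n + 1 + x) = 0 := by
      refine sum_eq_zero fun x _ => ?_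
      rw [gb_choose, Nat.choose_eq_zero_of_lt (by omega : n < n + 1 + x)]
      simp
    rw [h0, add_zero]
    refine sum_congr rfl fun k _ => ?_
    rw [rt, gq, gb_choose]
  rw [e1, SR]
  refine EQ.sum fun k hk => ?_
  have hk' := mem_range.1 hk
  have u2 := unit2 hpn
  have u4 : U p (4 : ℚ) := by
    have := u2.mul u2
    norm_num at this
    exact this
  have u8 : U p (8 : ℚ) := by
    have := u4.mul u2
    norm_num at this
    exact this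
  have uk := U_fac (p := p) hk'
  have h1 : EQ p 2 (∏ i ∈ range k, ((-1 / 4 - (i : ℚ)) ^ 2)) (∏ i ∈ range k, (((n : ℚ) - i) *
      (-(n : ℚ) - 1 / 2 - i))) := by
    refine EQ.prod fun i _ => ?_
    have m1 : (-1 / 4 - (i : ℚ)) ∈ Zp p := by
      refine sub_mem ?_ (nat_mem i)
      rw [div_eq_mul_inv]
      exact mul_mem (neg_mem (one_mem _)) u4.2.2
    have m2 : ((n : ℚ) - i) ∈ Zp p := sub_mem (nat_mem n) (nat_mem i)
    have m3 : (-(n : ℚ) - 1 / 2 - i) ∈ Zp p := by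
      refine sub_mem (sub_mem (neg_mem (nat_mem n)) ?_) (nat_mem i)
      rw [one_div]; exact u2.2.2
    refine ⟨pow_mem m1 2, mul_mem m2 m3, (4⁻¹ : ℚ) ^ 2, pow_mem u4.2.2 2, ?_⟩
    have h2 : (p : ℚ) = 4 * n + 1 := by exact_mod_cast hpn
    rw [h2]
    ring
  have m8 : (-1 / 8 : ℚ) ∈ Zp p := by
    rw [div_eq_mul_inv]
    exact mul_mem (neg_mem (one_mem _)) u8.2.2
  have h2 := (h1.mul (EQ.refl (k := 2) (uk.inv.pow 2).2.1)).mul
    (EQ.refl (k := 2) (pow_mem m8 k))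
  have e2 : (∏ i ∈ range k, ((-1 / 4 - (i : ℚ)) ^ 2)) * ((k.factorial : ℚ)⁻¹) ^ 2 * (-1 / 8) ^ k =
      gb (-1 / 4) k ^ 2 * (-1 / 8) ^ k := by
    rw [gb, prod_pow]
    ring
  have e3 : (∏ i ∈ range k, (((n : ℚ) - i) * (-(n : ℚ) - 1 / 2 - i))) * ((k.factorial : ℚ)⁻¹) ^ 2 *
      (-1 / 8) ^ k = gb (n : ℚ) k * gb (-(n : ℚ) - 1 / 2) k * (-1 / 8) ^ k := by
    rw [gb, gb, prod_mul_distrib]
    ring
  rw [e2, e3] at h2
  exact h2

theorem dt_ch {m k : ℕ} (hpm : p = 2 * m + 1) (hk : k ≤ m) :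
    EQ p 2 (dt m k) ((-1) ^ k * ch k ^ 2) := by
  rw [dt_eq]
  have h1 : EQ p 2 (∏ t ∈ range k, (1 - ((2 * (m : ℚ) + 1) / (2 * (t : ℚ) + 1)) ^ 2))
      (∏ t ∈ range k, (1 : ℚ)) := by
    refine EQ.prod fun t ht => ?_
    have ht' := mem_range.1 ht
    have u := U_nat (p := p) (k := 2 * t + 1) (by omega) (by omega)
    push_cast at u
    have h2 : (2 * (m : ℚ) + 1) = p := by rw [hpm]; push_cast; ring
    rw [h2, div_pow, div_eq_mul_inv]
    have u2 := (u.pow 2).inv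
    refine ⟨sub_mem (one_mem _) (mul_mem (pow_mem p_mem 2) u2.2.1), one_mem _,
      -((2 * (t : ℚ) + 1) ^ 2)⁻¹, neg_mem u2.2.1, ?_⟩
    ring
  rw [prod_const_one] at h1
  have h3 := (EQ.refl (k := 2) (mul_mem (pow_mem (neg_mem (one_mem (Zp p))) k)
    (pow_mem (ch_U hpm (by omega : k ≤ m)).2.1 2))).mul h1
  rw [mul_one] at h3
  exact h3

theorem ch_symm {k : ℕ} (hpn : p = 4 * n + 1) (hk : k ≤ 2 * n) :
    EQ p 1 (ch (2 * n - k)) (ch k) := by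
  have hpm : p = 2 * (2 * n) + 1 := by omega
  have h1 := ch_choose hpm (k := 2 * n - k) (by omega)
  have h2 := ch_choose hpm hk
  rw [Nat.choose_symm hk] at h1
  have e : (-1 : ℚ) ^ (2 * n - k) = (-1) ^ k := by
    have h3 : (-1 : ℚ) ^ (2 * n - k) * (-1) ^ k = 1 := by
      rw [← pow_add, Nat.sub_add_cancel hk, pow_mul]; norm_num
    have h4 : (-1 : ℚ) ^ k * (-1) ^ k = 1 := by rw [← mul_pow]; norm_num
    have h5 : (-1 : ℚ) ^ k ≠ 0 := pow_ne_zero _ (by norm_num)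
    apply mul_right_cancel₀ h5
    rw [h3, h4]
  rw [e] at h1
  exact h1.trans h2.symm

/-- the square trick -/
theorem sq_trick (hpn : p = 4 * n + 1) (s : ℕ → ℚ) (hs : ∀ i, s i ∈ Zp p) :
    EQ p 2 (2 * ∑ i ∈ range (2 * n + 1), s i * (ch i * ch (2 * n - i)))
      (∑ i ∈ range (2 * n + 1), s i * ch i ^ 2 + ∑ i ∈ range (2 * n + 1), s i * ch (2 * n - i) ^ 2) := by
  have hpm : p = 2 * (2 * n) + 1 := by omega
  have hch : ∀ k, k ≤ 2 * n → ch k ∈ Zp p := fun k hk => (ch_U hpm hk).2.1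
  rw [mul_sum, ← sum_add_distrib]
  refine EQ.sum fun i hi => ?_
  have hi' := mem_range.1 hi
  have m1 := hch i (by omega)
  have m2 := hch (2 * n - i) (by omega)
  have two : (2 : ℚ) ∈ Zp p := by exact_mod_cast nat_mem (p := p) 2
  refine ⟨mul_mem two (mul_mem (hs i) (mul_mem m1 m2)), add_mem (mul_mem (hs i) (pow_mem m1 2))
    (mul_mem (hs i) (pow_mem m2 2)), ?_⟩
  have h1 := (ch_symm hpn (by omega : i ≤ 2 * n)).2.2
  have h2 := (h1.mul h1).mulL (neg_mem (hs i))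
  convert h2 using 1
  ring

theorem TT_ch (hpn : p = 4 * n + 1) : EQ p 2 (TT (2 * n)) (ch n) := by
  have hpm : p = 2 * (2 * n) + 1 := by omega
  have u2 := unit2 hpn
  have s1 : ∀ k : ℕ, (-1 : ℚ) ^ k ∈ Zp p := fun k => pow_mem (neg_mem (one_mem _)) k
  have h1 := sq_trick hpn (fun i => (-1) ^ i) s1
  have e1 : ∑ i ∈ range (2 * n + 1), (-1 : ℚ) ^ i * (ch i * ch (2 * n - i)) = ch n := hh_even n
  have e2 : ∑ i ∈ range (2 * n + 1), (-1 : ℚ) ^ i * ch i ^ 2 = TT (2 * n) := rfl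
  have e3 : ∑ i ∈ range (2 * n + 1), (-1 : ℚ) ^ i * ch (2 * n - i) ^ 2 = TT (2 * n) := by
    rw [← e2, ← sum_range_reflect (fun i => (-1 : ℚ) ^ i * ch i ^ 2) (2 * n + 1)]
    refine sum_congr rfl fun j hj => ?_
    have hj' := mem_range.1 hj
    rw [show 2 * n + 1 - 1 - j = 2 * n - j by omega]
    have e : (-1 : ℚ) ^ (2 * n - j) = (-1) ^ j := by
      have h3 : (-1 : ℚ) ^ (2 * n - j) * (-1) ^ j = 1 := by
        rw [← pow_add, Nat.sub_add_cancel (by omega), pow_mul]; norm_num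
      have h4 : (-1 : ℚ) ^ j * (-1) ^ j = 1 := by rw [← mul_pow]; norm_num
      have h5 : (-1 : ℚ) ^ j ≠ 0 := pow_ne_zero _ (by norm_num)
      apply mul_right_cancel₀ h5
      rw [h3, h4]
    rw [e]
  rw [e1, e2, e3] at h1
  have mT : TT (2 * n) ∈ Zp p := sum_mem fun k hk => mul_mem (s1 k) (pow_mem (ch_U hpm (by
    have := mem_range.1 hk; omega)).2.1 2)
  have mc : ch n ∈ Zp p := (ch_U hpm (by omega)).2.1
  refine ⟨mT, mc, ?_⟩
  have h2 := h1.2.2.neg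
  have e : -(2 * ch n - (TT (2 * n) + TT (2 * n))) = 2 * (TT (2 * n) - ch n) := by ring
  rw [e] at h2
  exact u2.cancel h2

theorem DD_ch (hpn : p = 4 * n + 1) : EQ p 2 (DD (2 * n)) (ch n) :=
  (DD_TT (by omega)).trans (TT_ch hpn)

theorem bb_val (hpn : p = 4 * n + 1) :
    EQ p 2 (2 * bb (2 * n)) (ch n * (1 + (-1) ^ n * 4 ^ n)) := by
  have hpm : p = 2 * (2 * n) + 1 := by omega
  have u2 := unit2 hpn
  have h1 := sq_trick hpn (fun i => 2 ^ i) (fun i => pow_mem u2.2.1 i)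
  have e1 : ∑ i ∈ range (2 * n + 1), (2 : ℚ) ^ i * (ch i * ch (2 * n - i)) = bb (2 * n) := rfl
  rw [e1] at h1
  have m2 : (-2 : ℚ) ∈ Zp p := neg_mem u2.2.1
  have mh : (-1 / 2 : ℚ) ∈ Zp p := by
    rw [div_eq_mul_inv]
    exact mul_mem (neg_mem (one_mem _)) u2.2.2
  have h2 : EQ p 2 (∑ i ∈ range (2 * n + 1), (2 : ℚ) ^ i * ch i ^ 2) (DW (-2) (2 * n)) := by
    rw [DW]
    refine EQ.sum fun i hi => ?_
    have hi' := mem_range.1 hi
    have h3 := (dt_ch hpm (by omega : i ≤ 2 * n)).mul (EQ.refl (k := 2) (pow_mem m2 i))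
    have e : (-1 : ℚ) ^ i * ch i ^ 2 * (-2) ^ i = 2 ^ i * ch i ^ 2 := by
      have : (2 : ℚ) ^ i = (-1) ^ i * (-2) ^ i := by rw [← mul_pow]; norm_num
      rw [this]; ring
    rw [e] at h3
    exact h3.symm
  have h4 : EQ p 2 (∑ i ∈ range (2 * n + 1), (2 : ℚ) ^ i * ch (2 * n - i) ^ 2)
      (4 ^ n * DW (-1 / 2) (2 * n)) := by
    rw [DW, mul_sum, ← sum_range_reflect (fun i => (2 : ℚ) ^ i * ch (2 * n - i) ^ 2) (2 * n + 1)]
    refine EQ.sum fun i hi => ?_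
    have hi' := mem_range.1 hi
    rw [show 2 * n + 1 - 1 - i = 2 * n - i by omega, show 2 * n - (2 * n - i) = i by omega]
    have h3 := (EQ.refl (k := 2) (pow_mem u2.2.1 (2 * n))).mul
      ((dt_ch hpm (by omega : i ≤ 2 * n)).mul (EQ.refl (k := 2) (pow_mem mh i)))
    have e : (2 : ℚ) ^ (2 * n) * ((-1) ^ i * ch i ^ 2 * (-1 / 2) ^ i) = 2 ^ (2 * n - i) * ch i ^ 2 := by
      have h5 : (2 : ℚ) ^ (2 * n) = 2 ^ (2 * n - i) * 2 ^ i := by
        rw [← pow_add]; congr 1; omega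
      have h6 : (2 : ℚ) ^ i * ((-1) ^ i * (-1 / 2) ^ i) = 1 := by
        rw [← mul_pow, ← mul_pow]; norm_num
      rw [h5]
      linear_combination (2 ^ (2 * n - i) * ch i ^ 2) * h6
    rw [e] at h3
    have e4 : (4 : ℚ) ^ n = 2 ^ (2 * n) := by rw [pow_mul]; norm_num
    rw [e4]
    exact h3.symm
  have h5 := h1.trans (h2.add h4)
  rw [DW_neg, DW_half] at h5
  have e5 : (-1 : ℚ) ^ (2 * n) = 1 := by rw [pow_mul]; norm_num
  rw [e5, one_mul] at h5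
  have mc : ch n ∈ Zp p := (ch_U hpm (by omega)).2.1
  have m4 : (4 : ℚ) ^ n * ((-1) ^ n * ch n) ∈ Zp p := by
    refine mul_mem ?_ (mul_mem (pow_mem (neg_mem (one_mem _)) n) mc)
    exact pow_mem (by exact_mod_cast nat_mem (p := p) 4) n
  have h6 := h5.trans ((DD_ch hpn).add (EQ.refl (k := 2) m4))
  have e6 : ch n + 4 ^ n * ((-1) ^ n * ch n) = ch n * (1 + (-1) ^ n * 4 ^ n) := by ring
  rw [e6] at h6
  exact h6

theorem ch_val (hpn : p = 4 * n + 1) {x y : ℤ} (h : (p : ℤ) = x ^ 2 + y ^ 2) (hx : x % 4 = 1) :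
    EQ p 2 (ch n) ((-1) ^ n * (2 * x - p / (2 * x))) := by
  have h1 := SQ_val hpn h hx
  have h2 := SQ_QQ hpn
  rw [QQ_DD] at h2
  exact ((DD_ch hpn).symm.trans h2.symm).trans h1

/-- the main congruence -/
theorem SR_main (hpn : p = 4 * n + 1) {x y : ℤ} (h : (p : ℤ) = x ^ 2 + y ^ 2) (hx : x % 4 = 1) :
    EQ p 2 (2 * 2 ^ n * SR p) ((2 * x - p / (2 * x)) * ((2 ^ n) ^ 2 + (-1) ^ n)) ∧
      (2 * (x : ℚ) - p / (2 * x)) ∈ Zp p := by
  have u2 := unit2 hpn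
  have s1 : (-1 : ℚ) ^ n ∈ Zp p := pow_mem (neg_mem (one_mem _)) n
  have ss : (-1 : ℚ) ^ n * (-1) ^ n = 1 := by rw [← mul_pow]; norm_num
  have hv := ch_val hpn h hx
  have hV : (2 * (x : ℚ) - p / (2 * x)) ∈ Zp p := by
    have := mul_mem s1 hv.2.1
    rwa [← mul_assoc, ss, one_mul] at this
  refine ⟨?_, hV⟩
  have h1 := (EQ.refl (k := 2) (mul_mem u2.2.1 (pow_mem u2.2.1 n))).mul (SR_RR hpn)
  have e1 : (2 : ℚ) * 2 ^ n * RR n = 2 * bb (2 * n) := by rw [← RR_bb]; ring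
  rw [e1] at h1
  have h2 := h1.trans (bb_val hpn)
  have m4 : (1 : ℚ) + (-1) ^ n * 4 ^ n ∈ Zp p :=
    add_mem (one_mem _) (mul_mem s1 (pow_mem (by exact_mod_cast nat_mem (p := p) 4) n))
  have h3 := h2.trans (hv.mul (EQ.refl (k := 2) m4))
  have e4 : (4 : ℚ) ^ n = (2 ^ n) ^ 2 := by rw [← pow_mul, mul_comm, pow_mul]; norm_num
  have e5 : (-1 : ℚ) ^ n * (2 * x - p / (2 * x)) * (1 + (-1) ^ n * 4 ^ n) =
      (2 * x - p / (2 * x)) * ((2 ^ n) ^ 2 + (-1) ^ n) := by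
    rw [e4]
    linear_combination ((2 * (x : ℚ) - p / (2 * x)) * (2 ^ n) ^ 2) * ss
  rw [e5] at h3
  exact h3

end Run7.h441.FQ
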