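import Pool.Agent.R439.FD.FC

/-!
Exact identities for the second question of MP_fdcced_nt.
-/

set_option autoImplicit false

namespace Run7.h441.FQ

open Finset Pool.Agent.R439.W3 Pool.Agent.R439.S4 Pool.Agent.R439.FD
open Pool.Agent.R488.Cub (gb)
open Pool.Agent.R439 (ch ch_zero ch_succ)

/-! ### Legendre polynomials `P_m(1+2w)` -/

/-- `P_m(1+2w)` -/
def DW (w : ℚ) (m : ℕ) : ℚ := ∑ k ∈ range (m + 1), dt m k * w ^ k

theorem DW_rec (w : ℚ) (m : ℕ) : ((m : ℚ) + 2) * DW w (m + 2) - (2 * m + 3) * (1 + 2 * w) * DW w (m + 1) +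
    ((m : ℚ) + 1) * DW w m = 0 := by
  have c1 : (m : ℚ) + 1 ≠ 0 := by positivity
  have c2 : (m : ℚ) + 2 ≠ 0 := by positivity
  have h1 : ∀ k : ℕ, ((m : ℚ) + 2) * (dt (m + 2) k * w ^ k) -
      (2 * m + 3) * (1 + 2 * w) * (dt (m + 1) k * w ^ k) +
      ((m : ℚ) + 1) * (dt m k * w ^ k) =
        -2 * (2 * (m : ℚ) + 3) * ((k + 1 : ℕ) : ℚ) ^ 2 * dw m (k + 1) * w ^ (k + 1) /
        (((m : ℚ) + 1) * ((m : ℚ) + 2)) - -2 * (2 * (m : ℚ) + 3) * (k : ℚ) ^ 2 * dw m k * w ^ k /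
        (((m : ℚ) + 1) * ((m : ℚ) + 2)) := by
    intro k
    have h2 := dt_lo m k
    have h3 := dt_mid m k
    have h4 := dt_hi m k
    have h5 := dw_succ m k
    rw [← sub_div, eq_div_iff (mul_ne_zero c1 c2), pow_succ]
    push_cast
    linear_combination (w ^ k) * (((m : ℚ) + 2) * h4 - (2 * m + 3) * (1 + 2 * w) * h3 +
      ((m : ℚ) + 1) * h2 + 2 * (2 * (m : ℚ) + 3) * w * h5)
  have h2 : ∑ k ∈ range (m + 3), (((m : ℚ) + 2) * (dt (m + 2) k * w ^ k) -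
      (2 * m + 3) * (1 + 2 * w) * (dt (m + 1) k * w ^ k) +
      ((m : ℚ) + 1) * (dt m k * w ^ k)) = 0 := by
    rw [sum_congr rfl fun k _ => h1 k, sum_range_sub (fun k => -2 * (2 * (m : ℚ) + 3) * (k : ℚ) ^ 2 *
      dw m k * w ^ k / (((m : ℚ) + 1) * ((m : ℚ) + 2)))]
    rw [dw, Nat.choose_eq_zero_of_lt (by omega : m + 2 < m + 3)]
    simp
  rw [sum_add_distrib, sum_sub_distrib, ← mul_sum, ← mul_sum, ← mul_sum] at h2
  have h3 : ∑ k ∈ range (m + 3), dt m k * w ^ k = DW w m := by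
    rw [DW, sum_range_succ, sum_range_succ]
    have a1 : dt m (m + 1) = 0 := by rw [dt, Nat.choose_eq_zero_of_lt (by omega : m < m + 1)]; simp
    have a2 : dt m (m + 2) = 0 := by rw [dt, Nat.choose_eq_zero_of_lt (by omega : m < m + 2)]; simp
    rw [a1, a2]; ring
  have h4 : ∑ k ∈ range (m + 3), dt (m + 1) k * w ^ k = DW w (m + 1) := by
    rw [DW, sum_range_succ]
    have a1 : dt (m + 1) (m + 2) = 0 := by
      rw [dt, Nat.choose_eq_zero_of_lt (by omega : m + 1 < m + 2)]; simp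
    rw [a1]; ring
  rw [h3, h4] at h2
  exact h2

/-- `P_m(-3) = (-1)^m P_m(3)` -/
theorem DW_neg (m : ℕ) : DW (-2) m = (-1) ^ m * DD m := by
  have key : ∀ m : ℕ, DW (-2) m = (-1) ^ m * DD m ∧ DW (-2) (m + 1) = (-1) ^ (m + 1) * DD (m + 1) := by
    intro m
    induction m with
    | zero =>
      constructor
      · simp [DW, DD]
      · simp [DW, DD, dt, sum_range_succ]
        norm_num
    | succ m ih =>
      refine ⟨ih.2, ?_⟩
      have h1 := DW_rec (-2) m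
      have h2 := DD_rec m
      rw [ih.1, ih.2] at h1
      have c : (m : ℚ) + 2 ≠ 0 := by positivity
      apply mul_left_cancel₀ c
      rw [show m + 1 + 1 = m + 2 by ring]
      rw [pow_succ] at h1
      rw [pow_add]
      linear_combination h1 - (-1) ^ m * h2
  exact (key m).1

/-- `P_{2n}(0)` -/
theorem DW_half (n : ℕ) : DW (-1 / 2) (2 * n) = (-1) ^ n * ch n := by
  induction n with
  | zero => simp [DW, dt, ch_zero]
  | succ n ih =>
    have h1 := DW_rec (-1 / 2) (2 * n)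
    have h2 := ch_s n
    rw [ih] at h1
    rw [show 2 * (n + 1) = 2 * n + 2 by ring, pow_succ]
    push_cast at h1
    have c : 2 * (n : ℚ) + 2 ≠ 0 := by positivity
    apply mul_left_cancel₀ c
    linear_combination h1 + (-1) ^ n * h2

/-! ### the convolution with `2 ^ i` -/

def bb (m : ℕ) : ℚ := ∑ i ∈ range (m + 1), 2 ^ i * (ch i * ch (m - i))
def bA (m : ℕ) : ℚ := ∑ i ∈ range (m + 1), 2 ^ i * ((i : ℚ) * (ch i * ch (m - i)))
def bB (m : ℕ) : ℚ := ∑ i ∈ range (m + 1), 2 ^ i * (((m : ℚ) - i) * (ch i * ch (m - i)))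

theorem bA_succ (m : ℕ) : bA (m + 1) = 2 * bA m + bb m := by
  rw [bA, sum_range_succ', bA, bb, mul_sum, ← sum_add_distrib]
  simp only [Nat.cast_zero, zero_mul, mul_zero, add_zero]
  refine sum_congr rfl fun i _ => ?_
  have h := ch_s i
  rw [show m + 1 - (i + 1) = m - i by omega, pow_succ]
  push_cast
  linear_combination ((2 : ℚ) ^ i) * ch (m - i) * h

theorem bB_succ (m : ℕ) : 2 * bB (m + 1) = 2 * bB m + bb m := by
  rw [bB, sum_range_succ, bB, bb, mul_sum, ← sum_add_distrib]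
  simp only [sub_self, zero_mul, mul_zero, add_zero]
  rw [mul_sum]
  refine sum_congr rfl fun i hi => ?_
  have hi' := mem_range.1 hi
  have h := ch_s (m - i)
  rw [Nat.cast_sub (by omega : i ≤ m)] at h
  rw [show m + 1 - i = m - i + 1 by omega]
  push_cast
  linear_combination ((2 : ℚ) ^ i) * ch i * h

theorem bAB (m : ℕ) : bA m + bB m = m * bb m := by
  rw [bA, bB, bb, mul_sum, ← sum_add_distrib]
  exact sum_congr rfl fun i _ => by ring

theorem bb_rec (m : ℕ) : 2 * ((m : ℚ) + 2) * bb (m + 2) - 3 * (2 * m + 3) * bb (m + 1) +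
    4 * ((m : ℚ) + 1) * bb m = 0 := by
  have h1 := bA_succ m
  have h2 := bB_succ m
  have h3 := bAB m
  have h4 := bAB (m + 1)
  have h5 := bA_succ (m + 1)
  have h6 := bB_succ (m + 1)
  have h7 := bAB (m + 1 + 1)
  rw [show m + 2 = m + 1 + 1 by ring]
  push_cast at h4 h7 ⊢
  -- 2 (m+1) bb(m+1) = 2 bA m + (2m+3) bb m
  have e1 : 2 * ((m : ℚ) + 1) * bb (m + 1) = 2 * bA m + (2 * m + 3) * bb m := by
    linear_combination (-2) * h4 + 2 * h1 + h2 + 2 * h3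
  have e2 : 2 * ((m : ℚ) + 1 + 1) * bb (m + 1 + 1) = 2 * bA (m + 1) + (2 * (m + 1) + 3) * bb (m + 1) := by
    linear_combination (-2) * h7 + 2 * h5 + h6 + 2 * h4
  linear_combination e2 + 2 * h1 - 2 * e1

def BBh (n : ℚ) : ℚ := (2 * n + 3) ^ 2 * (4 * n + 3) - 9 / 8 * (4 * n + 5) * (4 * n + 7) * (4 * n + 3) +
  (2 * n + 2) ^ 2 * (4 * n + 7)

theorem bb_two (n : ℕ) : 4 * AAn n * bb (2 * (n + 2)) + 8 * BBh n * bb (2 * (n + 1)) +
    16 * CCn n * bb (2 * n) = 0 := by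
  have h0 := bb_rec (2 * n)
  have h1 := bb_rec (2 * n + 1)
  have h2 := bb_rec (2 * n + 2)
  rw [show 2 * (n + 2) = 2 * n + 2 + 2 by ring, show 2 * (n + 1) = 2 * n + 2 by ring, AAn, BBh, CCn]
  rw [show 2 * n + 1 + 2 = 2 * n + 2 + 1 by ring, show 2 * n + 1 + 1 = 2 * n + 2 by ring] at h1
  push_cast at h0 h1 h2
  linear_combination 2 * (2 * (n : ℚ) + 3) * (4 * n + 3) * h2 + 3 * (4 * (n : ℚ) + 7) * (4 * n + 3) * h1 +
    4 * (2 * (n : ℚ) + 2) * (4 * n + 7) * h0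

/-! ### The sum with `(-1/8)^k` -/

def rt (n k : ℕ) : ℚ := (n.choose k : ℚ) * gq n k * (-1 / 8) ^ k

def rv (n k : ℕ) : ℚ := ((n + 2).choose k : ℚ) * gq n k * (-1 / 8) ^ k

def RR (n : ℕ) : ℚ := ∑ k ∈ range (n + 1), rt n k

theorem RR_rec (n : ℕ) : AAn n * RR (n + 2) + BBh n * RR (n + 1) + CCn n * RR n = 0 := by
  have c1 : (n : ℚ) + 1 ≠ 0 := by positivity
  have c2 : (n : ℚ) + 2 ≠ 0 := by positivity
  have c3 : (n : ℚ) + 1 / 2 ≠ 0 := by positivity
  have c4 : (n : ℚ) + 1 + 1 / 2 ≠ 0 := by positivity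
  have h1 : ∀ k : ℕ, AAn n * rt (n + 2) k + BBh n * rt (n + 1) k + CCn n * rt n k =
      -((4 * (n : ℚ) + 3) * (4 * n + 5) * (4 * n + 7)) * ((k + 1 : ℕ) : ℚ) ^ 2 * rv n (k + 1) /
        (((n : ℚ) + 2) * ((n : ℚ) + 1 / 2)) - -((4 * (n : ℚ) + 3) * (4 * n + 5) * (4 * n + 7)) *
        (k : ℚ) ^ 2 * rv n k / (((n : ℚ) + 2) * ((n : ℚ) + 1 / 2)) := by
    intro k
    have e1 := ch_up n k
    have e2 := ch_up (n + 1) k
    have e3 := ch_right (n + 2) k
    have e4 := gq_up n k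
    have e5 := gq_up (n + 1) k
    have e6 := gb_succ (-(n : ℚ) - 1 / 2) k
    rw [show n + 1 + 1 = n + 2 by ring] at e2 e5
    have e6' : gq n (k + 1) * ((k : ℚ) + 1) = gq n k * (-(n : ℚ) - 1 / 2 - k) := e6
    push_cast at e1 e2 e3 e5
    have a1 : (n.choose k : ℚ) = ((n + 2).choose k : ℚ) * ((n : ℚ) + 2 - k) * ((n : ℚ) + 1 - k) /
        (((n : ℚ) + 1) * (n + 2)) := by
      rw [eq_div_iff (mul_ne_zero c1 c2)]
      linear_combination ((n : ℚ) + 2) * e1 + ((n : ℚ) + 1 - k) * e2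
    have a2 : ((n + 1).choose k : ℚ) = ((n + 2).choose k : ℚ) * ((n : ℚ) + 2 - k) / (n + 2) := by
      rw [eq_div_iff c2]
      linear_combination e2
    have a4 : gq (n + 1) k = gq n k * ((n : ℚ) + 1 / 2 + k) / ((n : ℚ) + 1 / 2) := by
      rw [eq_div_iff c3, e4]
    have a5 : gq (n + 2) k = gq n k * ((n : ℚ) + 1 / 2 + k) * ((n : ℚ) + 1 + 1 / 2 + k) /
        (((n : ℚ) + 1 / 2) * ((n : ℚ) + 1 + 1 / 2)) := by
      rw [eq_div_iff (mul_ne_zero c3 c4)]
      linear_combination ((n : ℚ) + 1 / 2) * e5 + ((n : ℚ) + 1 + 1 / 2 + k) * e4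
    have a6 : ((k : ℚ) + 1) ^ 2 * rv n (k + 1) = 1 / 8 * (((n : ℚ) + 2 - k) * ((n : ℚ) + 1 / 2 + k)) *
        rv n k := by
      rw [rv, rv, pow_succ (-1 / 8 : ℚ) k]
      linear_combination (-1 / 8 : ℚ) * (-1 / 8) ^ k * ((k : ℚ) + 1) * gq n (k + 1) * e3 +
        (-1 / 8 : ℚ) * (-1 / 8) ^ k * ((n + 2).choose k : ℚ) * ((n : ℚ) + 2 - k) * e6'
    have a7 : ((k + 1 : ℕ) : ℚ) ^ 2 * rv n (k + 1) = 1 / 8 * (((n : ℚ) + 2 - k) * ((n : ℚ) + 1 / 2 + k)) *
        rv n k := by push_cast; exact a6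
    rw [mul_assoc _ (((k + 1 : ℕ) : ℚ) ^ 2), a7, rt, rt, rt, rv, a1, a2, a4, a5, AAn, BBh, CCn]
    generalize ((n + 2).choose k : ℚ) = X
    generalize gq n k = Y
    generalize (-1 / 8 : ℚ) ^ k = Z
    have c5 : 2 * (n : ℚ) + 1 ≠ 0 := by positivity
    have c6 : 2 * (n : ℚ) + 3 ≠ 0 := by positivity
    have b1 : (n : ℚ) + 1 / 2 = (2 * n + 1) / 2 := by ring
    have b2 : (n : ℚ) + 1 + 1 / 2 = (2 * n + 3) / 2 := by ring
    rw [b2, b1]
    field_simp
    ring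
  have h2 : ∑ k ∈ range (n + 3), (AAn n * rt (n + 2) k + BBh n * rt (n + 1) k + CCn n * rt n k) = 0 := by
    rw [sum_congr rfl fun k _ => h1 k, sum_range_sub (fun k =>
      -((4 * (n : ℚ) + 3) * (4 * n + 5) * (4 * n + 7)) * (k : ℚ) ^ 2 * rv n k /
        (((n : ℚ) + 2) * ((n : ℚ) + 1 / 2)))]
    rw [rv, Nat.choose_eq_zero_of_lt (by omega : n + 2 < n + 3)]
    simp
  rw [sum_add_distrib, sum_add_distrib, ← mul_sum, ← mul_sum, ← mul_sum] at h2
  have h3 : ∑ k ∈ range (n + 3), rt n k = RR n := by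
    rw [RR, sum_range_succ, sum_range_succ]
    have a1 : rt n (n + 1) = 0 := by rw [rt, Nat.choose_eq_zero_of_lt (by omega : n < n + 1)]; simp
    have a2 : rt n (n + 2) = 0 := by rw [rt, Nat.choose_eq_zero_of_lt (by omega : n < n + 2)]; simp
    rw [a1, a2]; ring
  have h4 : ∑ k ∈ range (n + 3), rt (n + 1) k = RR (n + 1) := by
    rw [RR, sum_range_succ]
    have a1 : rt (n + 1) (n + 2) = 0 := by
      rw [rt, Nat.choose_eq_zero_of_lt (by omega : n + 1 < n + 2)]; simp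
    rw [a1]; ring
  rw [h3, h4] at h2
  exact h2

theorem ch_one : ch 1 = 1 / 2 := by
  have := ch_s 0
  rw [ch_zero] at this
  norm_num at this
  linarith

theorem ch_two' : ch 2 = 3 / 8 := by
  have := ch_s 1
  rw [ch_one] at this
  norm_num at this
  linarith

theorem RR_bb (n : ℕ) : 2 ^ n * RR n = bb (2 * n) := by
  have key : ∀ n : ℕ, 2 ^ n * RR n = bb (2 * n) ∧ 2 ^ (n + 1) * RR (n + 1) = bb (2 * (n + 1)) := by
    intro n
    induction n with
    | zero =>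
      constructor
      · simp [RR, rt, gq, gb, bb, ch_zero]
      · simp [RR, rt, gq, gb, bb, sum_range_succ, prod_range_succ, ch_zero, ch_one, ch_two']
        norm_num
    | succ n ih =>
      refine ⟨ih.2, ?_⟩
      have h1 := RR_rec n
      have h2 := bb_two n
      rw [← ih.1, ← ih.2] at h2
      have h3 : AAn n ≠ 0 := by rw [AAn]; positivity
      apply mul_left_cancel₀ h3
      rw [show n + 1 + 1 = n + 2 by ring]
      rw [pow_succ] at h2
      rw [pow_add]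
      linear_combination 4 * 2 ^ n * h1 - (1 / 4) * h2
  exact (key n).1

end Run7.h441.FQ
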